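import Pool.Agent.Helper7.PX.Goals
import Pool.Agent.Helper42.CG.LB
import Pool.Agent.Helper33.RR.GT
import Pool.Agent.Helper88.TU.Size
import Pool.Agent.Helper88.CG.VP

/-!
# MP_69be96_nt, project PX, packet LB: lower bound for the primes at the points of `B`
-/

set_option autoImplicit false

open Finset Filter Topology

open scoped Classical

namespace Pool.Agent.Helper82.PX

open Pool.Agent.Helper88.PP (pr Rg om Sf SS uu vv ee LA VV QQ cost)
open Pool.Agent.Helper88.RR (gg ab TB nz Db VM)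
open Pool.Agent.Helper88.GM (NI XI In)
open Pool.Agent.Helper88.CG (pw qE mE)
open Pool.Agent.Helper88.TU (Su size)
open Pool.Agent.Helper7.PX
open Pool.Agent.Helper85.RR (ab_nonneg mem_TB)
open Pool.Agent.Helper42.CG (pw_nonneg pw_le_one XI_nonneg bad_small)

/-- the exponential beats `1/E` -/
theorem exp_E (c η : ℝ) (hc : 0 < c) (hη : 0 < η) : ∃ E0 : ℕ, ∀ E : ℕ,
    E0 ≤ E → (E : ℝ) * Real.exp (-(c * E)) ≤ η := by
  have h1 := (Real.tendsto_pow_mul_exp_neg_atTop_nhds_zero 1).comp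
    (tendsto_natCast_atTop_atTop.const_mul_atTop hc : Tendsto (fun E : ℕ => c * (E : ℝ)) atTop atTop)
  have h2 := h1.eventually (gt_mem_nhds (show (0 : ℝ) < c * η by positivity))
  obtain ⟨E0, hE0⟩ := eventually_atTop.1 h2
  refine ⟨E0, fun E hE => ?_⟩
  have h3 := hE0 E hE
  simp only [Function.comp_apply, pow_one] at h3
  have h4 : c * ((E : ℝ) * Real.exp (-(c * E))) < c * η := by linarith
  exact (lt_of_mul_lt_mul_left h4 hc.le).le

/-- Chebyshev with the weights of the primes -/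
theorem cheb {x j : ℕ} (hx : 2 ≤ x) (N : Finset ℕ) (f : ℕ → ℝ) (bad : ℕ → Prop)
    [DecidablePred bad] (δ R : ℝ)
    (hb : ∀ n ∈ N, bad n → δ ^ 2 ≤ f n ^ 2)
    (hR : ∑ n ∈ N.filter (fun n => (n + j).Prime), f n ^ 2 ≤ R) :
    (∑ n ∈ N.filter bad, pw x (n + j)) * δ ^ 2 ≤ R := by
  refine le_trans ?_ hR
  rw [Finset.sum_mul, Finset.sum_filter (s := N) (p := fun n => (n + j).Prime)]
  refine le_trans (Finset.sum_le_sum (g := fun n => if (n + j).Prime then f n ^ 2 else 0)
    fun n hn => ?_) (Finset.sum_le_sum_of_subset_of_nonneg (Finset.filter_subset _ _)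
      fun n _ _ => by split_ifs <;> positivity)
  have hn' := Finset.mem_filter.1 hn
  by_cases hp : (n + j).Prime
  · rw [if_pos hp]
    calc pw x (n + j) * δ ^ 2 ≤ 1 * δ ^ 2 :=
          mul_le_mul_of_nonneg_right (pw_le_one x (n + j) hx) (sq_nonneg _)
      _ ≤ f n ^ 2 := by rw [one_mul]; exact hb n hn'.1 hn'.2
  · rw [if_neg hp]
    have : pw x (n + j) = 0 := by unfold pw; rw [if_neg hp]
    rw [this, zero_mul]

/-- the arithmetic of the bad integers -/
theorem bad_arith {S C3 A μ μ' δ ε κ η' : ℝ} (hC3 : 0 < C3) (hA : 0 ≤ A) (hμ1 : 1 ≤ μ)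
    (hμ' : μ' + 1 ≤ 2 * μ) (hη' : 0 < η') (hκ : 0 < κ) (hδ : δ = μ * η' / κ)
    (hε : 0 < ε) (hbig : 4 * C3 * κ ^ 2 / (η' ^ 2 * ε) ≤ μ)
    (h : S * δ ^ 2 ≤ C3 * A * (μ' + 1)) : S ≤ ε / 2 * A := by
  have hμ0 : 0 < μ := by linarith
  have hδ0 : 0 < δ := by rw [hδ]; positivity
  have h1 : 4 * C3 * κ ^ 2 ≤ μ * (η' ^ 2 * ε) := by
    rwa [div_le_iff₀ (by positivity)] at hbig
  have h2 : C3 * A * (μ' + 1) ≤ ε / 2 * A * δ ^ 2 := by
    have h3 : C3 * (μ' + 1) ≤ ε / 2 * δ ^ 2 := by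
      have h4 : ε / 2 * δ ^ 2 = μ * (μ * (η' ^ 2 * ε)) / (2 * κ ^ 2) := by
        rw [hδ]; field_simp
      rw [h4, le_div_iff₀ (by positivity)]
      have h5 : C3 * (μ' + 1) * (2 * κ ^ 2) ≤ C3 * (2 * μ) * (2 * κ ^ 2) := by
        refine mul_le_mul_of_nonneg_right ?_ (by positivity)
        exact mul_le_mul_of_nonneg_left hμ' hC3.le
      have h6 : μ * (4 * C3 * κ ^ 2) ≤ μ * (μ * (η' ^ 2 * ε)) :=
        mul_le_mul_of_nonneg_left h1 hμ0.le
      calc C3 * (μ' + 1) * (2 * κ ^ 2) ≤ C3 * (2 * μ) * (2 * κ ^ 2) := h5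
        _ = μ * (4 * C3 * κ ^ 2) := by ring
        _ ≤ _ := h6
    calc C3 * A * (μ' + 1) = A * (C3 * (μ' + 1)) := by ring
      _ ≤ A * (ε / 2 * δ ^ 2) := mul_le_mul_of_nonneg_left h3 hA
      _ = ε / 2 * A * δ ^ 2 := by ring
  exact le_of_mul_le_mul_right (h.trans h2) (by positivity)

/-- Packet `LB`. -/
theorem lb (hLW : StmtLW) (hFD : StmtFD) (hFC : StmtFC) (hTL : StmtTL) (hCM : StmtCM)
    (hCO : Pool.Agent.Helper88.TU.StmtCO) : StmtLB := by
  obtain ⟨c2, hc2, hLW⟩ := hLW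
  obtain ⟨cT, hcT0, hcT1, hTL⟩ := hTL
  obtain ⟨cM, hcM0, hcM1, hCM⟩ := hCM
  obtain ⟨C3, hC3, E3, hCO⟩ := hCO
  refine ⟨min cT cM, lt_min hcT0 hcM0, (min_le_left _ _).trans hcT1, fun t ht η hη => ?_⟩
  have ht0 : 0 < t := by linarith
  set T : ℝ := (1 + t) ^ 2 with hT
  have hT1 : 1 ≤ T := by rw [hT]; nlinarith
  have hT0 : 0 < T := by linarith
  set η' : ℝ := min η 1 / 2 with hη'
  have hη'0 : 0 < η' := by rw [hη']; have := lt_min hη one_pos; linarith
  have hη'1 : η' ≤ 1 / 2 := by rw [hη']; have := min_le_right η 1; linarith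
  have hη'2 : η' ≤ η := by rw [hη']; have := min_le_left η 1; have := lt_min hη one_pos; linarith
  set ε : ℝ := η / (2 * T) with hε
  have hε0 : 0 < ε := by rw [hε]; positivity
  obtain ⟨E1, hLW⟩ := hLW T hT1
  obtain ⟨E2, hTL⟩ := hTL t ht 1 one_pos
  obtain ⟨E4, hCM⟩ := hCM t ht η' hη'0
  obtain ⟨c5, hc5, E5, hVP⟩ := Pool.Agent.Helper88.CG.vp
  obtain ⟨c6, hc6, hom⟩ := Pool.Agent.Helper74.PP.om_lower
  obtain ⟨E6, hex⟩ := exp_E c2 (η / 2) hc2 (by positivity)
  obtain ⟨E9, hsize⟩ := size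
  obtain ⟨E7, hbad⟩ := bad_small (1024 * C3 / (η' ^ 2 * ε) + 16 / η') (by positivity)
  refine ⟨E1 + E2 + E3 + E4 + E5 + E6 + E7 + E9 + 64,
    fun E z x y hE hS b hb P B hP hBP hPB hB j hj => ?_⟩
  have hE8 : 64 ≤ E := by omega
  obtain ⟨a1, a2, a3, a4, a5, a6, a7, a8, a9, a10, a11, a12, a13, a14⟩ :=
    hsize E z x y (by omega) hS
  have hEr : (64 : ℝ) ≤ E := by exact_mod_cast hE8
  have hE0 : (0 : ℝ) < E := by linarith
  obtain ⟨hm1, hqm, hM2, hK6, _, hVV⟩ := hVP E (by omega)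
  -- `z`
  have hzE : Real.exp E ≤ z := hS.1
  have hz2 : 2 ≤ z := by omega
  have hV1 := (hVV z hz2).1
  have hV0 : VV z (mE E) (qE E * mE E) ≠ 0 := by
    intro h0
    rw [h0] at hV1
    linarith
  -- `y`
  have hyE : E ≤ y := by
    have : E ≤ E ^ 2 := Nat.le_self_pow (by norm_num) E
    omega
  set m := mE E with hm
  set q := qE E with hq
  have hq1 : 1 ≤ q := by
    rw [hq]
    unfold qE
    exact Nat.one_le_two_pow
  have hqm' : q * m ≤ E / 16 := by
    refine le_trans ?_ hqm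
    rw [pow_two, mul_assoc]
    calc q * m = 1 * (q * m) := (one_mul _).symm
      _ ≤ q * (q * m) := Nat.mul_le_mul_right _ hq1
  -- `x`
  have hx2 : 2 ≤ x := by omega
  have hlogz : 0 < Real.log z := Real.log_pos (by exact_mod_cast hz2)
  -- the size of `om`
  set o : ℝ := om y z with ho
  have homl : 1 / (c6 * Real.log z) ≤ o := (hom y z hz2).1
  have ho1 : o ≤ 1 := (hom y z hz2).2
  have ho0 : 0 < o := lt_of_lt_of_le (by positivity) homl
  set X : ℝ := XI (x / 32) x (QQ x) with hX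
  have hX0 : 0 ≤ X := XI_nonneg _ _ _
  set A : ℝ := X * (o / E) with hA
  have hA0 : 0 ≤ A := by rw [hA]; positivity
  have hexp : Real.exp (-(c2 * E)) * (o * X) ≤ η / 2 * A := by
    have h8 := hex E (by omega)
    have h9 : Real.exp (-(c2 * E)) ≤ η / 2 / E := by
      rw [le_div_iff₀ hE0]; linarith
    calc Real.exp (-(c2 * E)) * (o * X) ≤ η / 2 / E * (o * X) :=
          mul_le_mul_of_nonneg_right h9 (by positivity)
      _ = η / 2 * A := by rw [hA]; ring
  -- the number of points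
  have hlogE : Real.log E ≤ E / 2 := by
    have h1 : Real.log ((E : ℝ) / 2) ≤ (E : ℝ) / 2 - 1 := Real.log_le_sub_one_of_pos (by positivity)
    have h2 : Real.log E = Real.log ((E : ℝ) / 2) + Real.log 2 := by
      rw [← Real.log_mul (by positivity) (by norm_num)]
      congr 1
      ring
    have h3 : Real.log 2 ≤ 1 := by
      have := Real.log_two_lt_d9
      linarith
    linarith
  have hlogE0 : 0 ≤ Real.log E := Real.log_nonneg (by linarith)
  have hPB2 : ((P.card : ℝ) + t ^ 2 * B.card) * o ≤ (E : ℝ) ^ 2 / 2 := by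
    refine hPB.trans ?_
    have h1 : min cT cM ≤ 1 := (min_le_left _ _).trans hcT1
    have h2 : (E : ℝ) * Real.log E ≤ E * (E / 2) := mul_le_mul_of_nonneg_left hlogE hE0.le
    calc min cT cM * (E * Real.log E) ≤ 1 * (E * Real.log E) :=
          mul_le_mul_of_nonneg_right h1 (by positivity)
      _ ≤ (E : ℝ) ^ 2 / 2 := by nlinarith
  have hcardP : (P.card : ℝ) * o ≤ (E : ℝ) ^ 2 / 2 := by
    refine le_trans ?_ hPB2
    refine mul_le_mul_of_nonneg_right ?_ ho0.le
    have : 0 ≤ t ^ 2 * (B.card : ℝ) := by positivity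
    linarith
  have hcardQ : ∀ Q : Finset ℕ, Q ⊆ P → (Q.card : ℝ) * o ≤ (E : ℝ) ^ 2 / 2 := by
    intro Q hQ
    refine le_trans ?_ hcardP
    refine mul_le_mul_of_nonneg_right ?_ ho0.le
    exact_mod_cast Finset.card_le_card hQ
  have hPBT : ((P.card : ℝ) + t ^ 2 * B.card) * o ≤ cT * (E * Real.log E) :=
    hPB.trans (mul_le_mul_of_nonneg_right (min_le_left _ _) (by positivity))
  have hPBM : ((P.card : ℝ) + t ^ 2 * B.card) * o ≤ cM * (E * Real.log E) :=
    hPB.trans (mul_le_mul_of_nonneg_right (min_le_right _ _) (by positivity))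
  -- the facts on the weight
  obtain ⟨hD1, hBd, hgw, -⟩ := hTL E z y (by omega) hz2 hyE P B hP hBP hPBT
  set D := DN E z y B t P with hD
  set N := NI (x / 32) x (QQ x) b with hN
  have hjP : j ∈ P := hBP hj
  set jP : P := ⟨j, hjP⟩ with hjPd
  have hcsj : cs B t (jP : ℕ) = t := by unfold cs; rw [if_pos hj]
  set fo : (P → ℕ) → ℝ := Pool.Agent.Helper7.PX.fold E z jP (cw E z B t) with hfo
  have hfo0 : ∀ r : P → ℕ, r jP ≠ 0 → fo r = 0 := by
    intro r hr
    rw [hfo]
    unfold Pool.Agent.Helper7.PX.fold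
    rw [if_neg hr]
  have hfo1 : ∀ r ∈ TE E z P, r jP = 0 → fo r = (1 + t * (1 - Db m q (E / 16) z (cost z r))) *
      cw E z B t r := by
    intro r hr hr0
    have h1 := (hFC E z P B t jP r ht0.le hm1 hz2 hV0 hr).1 hr0
    rw [hcsj] at h1
    exact h1
  -- `Bd`
  have hBdf : Bd E z T fo := by
    intro r hr
    have hp1 : 0 ≤ ∏ i : P, (if r i = 0 then (1 : ℝ) else T * ab m q z (r i)) :=
      Finset.prod_nonneg fun i _ => by
        split_ifs
        · exact zero_le_one
        · exact mul_nonneg hT0.le (ab_nonneg _ _ _ _)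
    by_cases hr0 : r jP = 0
    · rw [hfo1 r hr hr0, abs_mul]
      have h1 : 0 ≤ Db m q (E / 16) z (cost z r) := Pool.Agent.Helper33.RR.Db_nonneg _ _ _ _ _
      have h2 : Db m q (E / 16) z (cost z r) ≤ 1 := Pool.Agent.Helper33.RR.Db_le _ _ _ _ _ hV0
      have h3 : |1 + t * (1 - Db m q (E / 16) z (cost z r))| ≤ 1 + t := by
        rw [abs_of_nonneg (by nlinarith)]
        nlinarith
      have h4 := hBd r hr
      have h5 : ∏ i : P, (if r i = 0 then (1 : ℝ) else t * ab m q z (r i)) ≤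
          ∏ i : P, (if r i = 0 then (1 : ℝ) else T * ab m q z (r i)) := by
        refine Finset.prod_le_prod (fun i _ => ?_) fun i _ => ?_
        · split_ifs
          · exact zero_le_one
          · exact mul_nonneg ht0.le (ab_nonneg _ _ _ _)
        · split_ifs
          · exact le_rfl
          · refine mul_le_mul_of_nonneg_right ?_ (ab_nonneg _ _ _ _)
            rw [hT]; nlinarith
      calc |1 + t * (1 - Db m q (E / 16) z (cost z r))| * |cw E z B t r|
          ≤ (1 + t) * (t * ∏ i : P, (if r i = 0 then (1 : ℝ) else t * ab m q z (r i))) :=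
            mul_le_mul h3 h4 (abs_nonneg _) (by linarith)
        _ ≤ (1 + t) * (t * ∏ i : P, (if r i = 0 then (1 : ℝ) else T * ab m q z (r i))) := by
            refine mul_le_mul_of_nonneg_left ?_ (by linarith)
            exact mul_le_mul_of_nonneg_left h5 ht0.le
        _ = ((1 + t) * t) * ∏ i : P, (if r i = 0 then (1 : ℝ) else T * ab m q z (r i)) := by ring
        _ ≤ T * ∏ i : P, (if r i = 0 then (1 : ℝ) else T * ab m q z (r i)) := by
            refine mul_le_mul_of_nonneg_right ?_ hp1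
            rw [hT]; nlinarith
    · rw [hfo0 r hr0, abs_zero]
      exact mul_nonneg hT0.le hp1
  -- the weight at a prime
  have hWN : ∑ n ∈ N, pw x (n + j) * WN E z y B t P n ^ 2 =
      ∑ n ∈ N, pw x (n + j) * GW E z y fo n ^ 2 := by
    refine Finset.sum_congr rfl fun n hn => ?_
    by_cases hp : (n + j).Prime
    · have hnx : x / 32 < n := by
        have h1 := (Finset.mem_filter.1 hn).1
        exact (Finset.mem_Ioc.1 h1).1
      have hzn : z ^ (E / 16) ≤ n := by
        have h1 : z ^ (E / 16) * 32 ≤ x := by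
          calc z ^ (E / 16) * 32 ≤ z ^ (E / 16) * z := Nat.mul_le_mul_left _ (by omega)
            _ = z ^ (E / 16 + 1) := (pow_succ _ _).symm
            _ ≤ z ^ E := Nat.pow_le_pow_right (by omega) (by omega)
            _ ≤ x := hS.2.1
        have h2 : z ^ (E / 16) ≤ x / 32 := (Nat.le_div_iff_mul_le (by norm_num)).2 h1
        omega
      have h1 := hFD E z y P jP n (cw E z B t) hM2 hm1 hz2 hqm' hp hzn
      unfold WN
      rw [h1]
    · have : pw x (n + j) = 0 := by unfold pw; rw [if_neg hp]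
      rw [this, zero_mul, zero_mul]
  rw [hWN]
  have hmain := hLW E z x y (by omega) hS b hb P hP (hcardP.trans (by nlinarith [sq_nonneg (E : ℝ)]))
    jP fo hBdf (fun r _ hr => hfo0 r hr)
  -- the rough points
  set S : ℕ → Finset ℕ := fun n => (P.erase j).filter (fun h => Rg y z (n + h)) with hSd
  set D' : Finset ℕ → ℝ := fun Q => ∑ r ∈ TE E z P,
    (if cost z r + q * m ≤ E / 16 ∧ r jP = 0 ∧ (∀ i : P, r i ≠ 0 → (i : ℕ) ∈ Q) then
      cw E z B t r ^ 2 * ∏ i : P, (if r i = 0 then 1 else (Nat.totient (r i) : ℝ)) else 0) with hD'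
  have hφ0 : ∀ r : P → ℕ, 0 ≤ ∏ i : P, (if r i = 0 then (1 : ℝ) else (Nat.totient (r i) : ℝ)) :=
    fun r => Finset.prod_nonneg fun i _ => by split_ifs <;> positivity
  have hD'0 : ∀ Q, 0 ≤ D' Q := fun Q => Finset.sum_nonneg fun r _ => by
    split_ifs
    · exact mul_nonneg (sq_nonneg _) (hφ0 r)
    · exact le_rfl
  have hlow1 : ∀ n, T * D' (S n) ≤ ∑ r ∈ TE E z P,
      (if ∀ i : P, r i ≠ 0 → Rg y z (n + (i : ℕ)) then
        fo r ^ 2 * ∏ i : P, (if r i = 0 then 1 else (Nat.totient (r i) : ℝ)) else 0) := by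
    intro n
    rw [hD', Finset.mul_sum]
    refine Finset.sum_le_sum fun r hr => ?_
    by_cases hc : cost z r + q * m ≤ E / 16 ∧ r jP = 0 ∧ (∀ i : P, r i ≠ 0 → (i : ℕ) ∈ S n)
    · rw [if_pos hc, if_pos fun i hi => (Finset.mem_filter.1 (hc.2.2 i hi)).2, hfo1 r hr hc.2.1,
        Pool.Agent.Helper33.RR.Db_zero m q (E / 16) z (cost z r) hz2 hc.1]
      apply le_of_eq
      rw [hT]
      ring
    · rw [if_neg hc, mul_zero]
      split_ifs
      · exact mul_nonneg (sq_nonneg _) (hφ0 r)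
      · exact le_rfl
  -- the good integers
  set K : ℝ := ((E / 16 / m : ℕ) : ℝ) with hK
  have hK0 : 0 ≤ K := by rw [hK]; positivity
  set κ : ℝ := 8 * (K + 1) with hκ
  have hκ0 : 0 < κ := by rw [hκ]; positivity
  set μA : ℝ := ((P \ B).card : ℝ) * o with hμA
  set μB : ℝ := (B.card : ℝ) * o with hμB
  have hSB : ∀ n, S n ∩ B = (B.erase j).filter (fun h => Rg y z (n + h)) := by
    intro n
    ext i
    simp only [hSd, Finset.mem_inter, Finset.mem_filter, Finset.mem_erase]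
    constructor
    · rintro ⟨⟨⟨h1, h2⟩, h3⟩, h4⟩
      exact ⟨⟨h1, h4⟩, h3⟩
    · rintro ⟨⟨h1, h4⟩, h3⟩
      exact ⟨⟨⟨h1, hBP h4⟩, h3⟩, h4⟩
  have hSA : ∀ n, S n \ B = (P \ B).filter (fun h => Rg y z (n + h)) := by
    intro n
    ext i
    simp only [hSd, Finset.mem_sdiff, Finset.mem_filter, Finset.mem_erase]
    constructor
    · rintro ⟨⟨⟨h1, h2⟩, h3⟩, h4⟩
      exact ⟨⟨h2, h4⟩, h3⟩
    · rintro ⟨⟨h2, h4⟩, h3⟩
      exact ⟨⟨⟨fun h => h4 (h ▸ hj), h2⟩, h3⟩, h4⟩
  set badA : ℕ → Prop := fun n => ¬ (μA ≤ √E ∨ μA * (1 - η' / κ) ≤ (S n \ B).card) with hbadA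
  set badB : ℕ → Prop := fun n => ¬ (μB * (1 - η' / κ) ≤ (S n ∩ B).card) with hbadB
  have hgoodD : ∀ n, ¬ badA n → ¬ badB n → (1 - η') * D ≤ D' (S n) := by
    intro n h1 h2
    exact hCM E z y (by omega) hz2 hyE P B hP hBP hPBM hB jP hj (S n)
      ((Finset.filter_subset _ _).trans (Finset.erase_subset _ _))
      (fun h => (Finset.mem_erase.1 (Finset.mem_filter.1 h).1).1 rfl) (not_not.1 h1) (not_not.1 h2)
  -- the bad integers
  have hbd : (1024 * C3 / (η' ^ 2 * ε) + 16 / η') * (K + 1) ^ 2 ≤ √E := hbad E (by omega) _ hK6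
  have hbd1 : 1024 * C3 / (η' ^ 2 * ε) * (K + 1) ^ 2 ≤ √E := by
    refine le_trans (mul_le_mul_of_nonneg_right ?_ (sq_nonneg _)) hbd
    have : 0 < 16 / η' := by positivity
    linarith
  have hbd2 : 16 / η' * (K + 1) ≤ √E := by
    have h0 : 16 / η' * (K + 1) ^ 2 ≤ √E := by
      refine le_trans (mul_le_mul_of_nonneg_right ?_ (sq_nonneg _)) hbd
      have : 0 < 1024 * C3 / (η' ^ 2 * ε) := by positivity
      linarith
    refine le_trans ?_ h0
    refine mul_le_mul_of_nonneg_left ?_ (by positivity)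
    nlinarith
  have hsq1 : 1 ≤ √(E : ℝ) := by
    rw [Real.one_le_sqrt]
    linarith
  have hj1 : j ∈ Icc 1 y := hP hjP
  have hsumA : ∑ n ∈ N.filter badA, pw x (n + j) ≤ ε / 2 * A := by
    rcases le_or_gt μA (√E) with hsm | hlg
    · have h7 : N.filter badA = ∅ :=
        Finset.filter_eq_empty_iff.2 fun n _ h => h (Or.inl hsm)
      rw [h7, Finset.sum_empty]
      positivity
    · have hμ1 : 1 ≤ μA := by linarith
      have hco := hCO E z x y (by omega) hS b hb (P \ B) (Finset.sdiff_subset.trans hP)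
        (hcardQ _ Finset.sdiff_subset) j hj1 (fun h => (Finset.mem_sdiff.1 h).2 hj)
      refine bad_arith (μ := μA) (μ' := μA) (δ := μA * η' / κ) (κ := κ) (η' := η') hC3 hA0 hμ1
        (by linarith) hη'0 hκ0 rfl hε0 ?_ (cheb hx2 N
          (fun n => (((P \ B).filter (fun h => Rg y z (n + h))).card : ℝ) - (P \ B).card * o) badA
          (μA * η' / κ) _ ?_ hco)
      · refine le_trans ?_ (hbd1.trans hlg.le)
        rw [hκ]
        have e1 : 4 * C3 * (8 * (K + 1)) ^ 2 / (η' ^ 2 * ε) =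
            256 * C3 / (η' ^ 2 * ε) * (K + 1) ^ 2 := by ring
        rw [e1]
        refine mul_le_mul_of_nonneg_right ?_ (sq_nonneg _)
        refine div_le_div_of_nonneg_right ?_ (by positivity)
        linarith
      · intro n _ hn
        have hn' : ¬ (μA ≤ √E ∨ μA * (1 - η' / κ) ≤ (S n \ B).card) := hn
        push Not at hn'
        rw [hSA] at hn'
        have h11 := hn'.2
        have h12 : μA * η' / κ ≤ μA - (((P \ B).filter (fun h => Rg y z (n + h))).card : ℝ) := by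
          have : μA * (1 - η' / κ) = μA - μA * η' / κ := by ring
          linarith
        have h13 : 0 ≤ μA * η' / κ := by positivity
        have h14 := pow_le_pow_left₀ h13 h12 2
        refine h14.trans (le_of_eq ?_)
        rw [hμA]
        ring
  have hsumB : ∑ n ∈ N.filter badB, pw x (n + j) ≤ ε / 2 * A := by
    have hμ1 : 1 ≤ μB := hsq1.trans hB
    have hcardB : ((B.erase j).card : ℝ) = B.card - 1 := by
      rw [Finset.card_erase_of_mem hj, Nat.cast_sub (Finset.card_pos.2 ⟨j, hj⟩), Nat.cast_one]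
    have hco := hCO E z x y (by omega) hS b hb (B.erase j)
      ((Finset.erase_subset _ _).trans (hBP.trans hP))
      (hcardQ _ ((Finset.erase_subset _ _).trans hBP)) j hj1 (Finset.notMem_erase j B)
    have hμ' : ((B.erase j).card : ℝ) * o = μB - o := by rw [hcardB, hμB]; ring
    have hdev : 1 ≤ μB * η' / (2 * κ) := by
      rw [le_div_iff₀ (by positivity), one_mul]
      have h1 : 16 / η' * (K + 1) ≤ μB := hbd2.trans hB
      have h2 : 16 / η' * (K + 1) * η' ≤ μB * η' := mul_le_mul_of_nonneg_right h1 hη'0.le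
      have h3 : 16 / η' * (K + 1) * η' = 2 * κ := by rw [hκ]; field_simp; ring
      linarith
    refine bad_arith (μ := μB) (μ' := ((B.erase j).card : ℝ) * o) (δ := μB * η' / (2 * κ))
      (κ := 2 * κ) (η' := η') hC3 hA0 hμ1
      (by rw [hμ']; linarith) hη'0 (by positivity) rfl hε0 ?_ (cheb hx2 N
        (fun n => (((B.erase j).filter (fun h => Rg y z (n + h))).card : ℝ) -
          (B.erase j).card * o) badB (μB * η' / (2 * κ)) _ ?_ hco)
    · refine le_trans ?_ (hbd1.trans hB)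
      rw [hκ]
      apply le_of_eq
      ring
    · intro n _ hn
      have hn' : ¬ (μB * (1 - η' / κ) ≤ (S n ∩ B).card) := hn
      push Not at hn'
      rw [hSB] at hn'
      have e1 : μB * η' / κ = μB * η' / (2 * κ) + μB * η' / (2 * κ) := by
        field_simp
        ring
      have h12 : μB * η' / (2 * κ) ≤
          (μB - o) - (((B.erase j).filter (fun h => Rg y z (n + h))).card : ℝ) := by
        have : μB * (1 - η' / κ) = μB - μB * η' / κ := by ring
        linarith
      have h13 : 0 ≤ μB * η' / (2 * κ) := by positivity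
      have h14 := pow_le_pow_left₀ h13 h12 2
      refine h14.trans (le_of_eq ?_)
      show _ = ((((B.erase j).filter (fun h => Rg y z (n + h))).card : ℝ) -
          ((B.erase j).card : ℝ) * o) ^ 2
      rw [hμ']
      ring
  -- assembly
  have hS0 : 0 ≤ ∑ n ∈ N, pw x (n + j) := Finset.sum_nonneg fun n _ => pw_nonneg _ _
  set s0 := ∑ n ∈ N, pw x (n + j) with hs0
  set good : ℕ → Prop := fun n => ¬ badA n ∧ ¬ badB n with hgood
  have hsplit : s0 - ε * A ≤ ∑ n ∈ N.filter good, pw x (n + j) := by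
    have h1 : s0 ≤ ∑ n ∈ N.filter good, pw x (n + j) + ∑ n ∈ N.filter badA, pw x (n + j) +
        ∑ n ∈ N.filter badB, pw x (n + j) := by
      rw [hs0, Finset.sum_filter, Finset.sum_filter, Finset.sum_filter, ← Finset.sum_add_distrib,
        ← Finset.sum_add_distrib]
      refine Finset.sum_le_sum fun n _ => ?_
      have h2 := pw_nonneg x (n + j)
      by_cases hA1 : badA n
      · rw [if_pos hA1]
        split_ifs <;> linarith
      · by_cases hB1 : badB n
        · rw [if_pos hB1]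
          split_ifs <;> linarith
        · rw [if_pos (show good n from ⟨hA1, hB1⟩), if_neg hA1, if_neg hB1]
          linarith
    linarith
  have hlow : T * ((1 - η') * D * (s0 - ε * A)) ≤
      ∑ n ∈ N, pw x (n + j) * (T * D' (S n)) := by
    have h7 : ∑ n ∈ N.filter good, pw x (n + j) * (T * ((1 - η') * D)) ≤
        ∑ n ∈ N, pw x (n + j) * (T * D' (S n)) := by
      refine le_trans (Finset.sum_le_sum (g := fun n => pw x (n + j) * (T * D' (S n)))
        fun n hn => ?_) (Finset.sum_le_sum_of_subset_of_nonneg (Finset.filter_subset _ _)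
          fun n _ _ => mul_nonneg (pw_nonneg _ _) (mul_nonneg hT0.le (hD'0 _)))
      have hn' := (Finset.mem_filter.1 hn).2
      exact mul_le_mul_of_nonneg_left (mul_le_mul_of_nonneg_left (hgoodD n hn'.1 hn'.2) hT0.le)
        (pw_nonneg _ _)
    rw [← Finset.sum_mul] at h7
    have h10 : 0 ≤ T * ((1 - η') * D) :=
      mul_nonneg hT0.le (mul_nonneg (by linarith) (by linarith))
    calc T * ((1 - η') * D * (s0 - ε * A)) = (s0 - ε * A) * (T * ((1 - η') * D)) := by ring
      _ ≤ (∑ n ∈ N.filter good, pw x (n + j)) * (T * ((1 - η') * D)) :=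
          mul_le_mul_of_nonneg_right hsplit h10
      _ ≤ _ := h7
  have hlow2 : ∑ n ∈ N, pw x (n + j) * (T * D' (S n)) ≤
      ∑ n ∈ N, pw x (n + (jP : ℕ)) * ∑ r ∈ TE E z P,
      (if ∀ i : P, r i ≠ 0 → Rg y z (n + (i : ℕ)) then
        fo r ^ 2 * ∏ i : P, (if r i = 0 then 1 else (Nat.totient (r i) : ℝ)) else 0) :=
    Finset.sum_le_sum fun n _ => mul_le_mul_of_nonneg_left (hlow1 n) (pw_nonneg _ _)
  have h7 := (abs_le.1 hmain).1
  have hW : ∑ n ∈ N, pw x (n + j) * GW E z y fo n ^ 2 =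
    ∑ n ∈ N, pw x (n + (jP : ℕ)) * GW E z y fo n ^ 2 := rfl
  rw [hW]
  set W := ∑ n ∈ N, pw x (n + (jP : ℕ)) * GW E z y fo n ^ 2 with hWd
  set V := ∑ n ∈ N, pw x (n + (jP : ℕ)) * ∑ r ∈ TE E z P,
      (if ∀ i : P, r i ≠ 0 → Rg y z (n + (i : ℕ)) then
        fo r ^ 2 * ∏ i : P, (if r i = 0 then 1 else (Nat.totient (r i) : ℝ)) else 0) with hVd
  have h8 : T * ((1 - η') * D * (s0 - ε * A)) - η / 2 * A ≤ W := by linarith
  refine le_trans ?_ h8
  have h9 : η / 2 * A ≤ D * (η / 2 * A) := le_mul_of_one_le_left (by positivity) hD1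
  have h10 : (1 - η) * T * s0 - η * A ≤ T * ((1 - η') * (s0 - ε * A)) - η / 2 * A := by
    have e1 : (1 - η) * (T * s0) ≤ (1 - η') * (T * s0) :=
      mul_le_mul_of_nonneg_right (by linarith) (mul_nonneg hT0.le hS0)
    have e2 : T * (ε * A) = η / 2 * A := by rw [hε]; field_simp
    have e3 : (1 - η') * (T * (ε * A)) ≤ η / 2 * A := by
      rw [e2]
      have : 0 ≤ η' * (η / 2 * A) := by positivity
      linarith
    linarith
  have h11 : D * ((1 - η) * T * s0 - η * A) ≤
      D * (T * ((1 - η') * (s0 - ε * A)) - η / 2 * A) :=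
    mul_le_mul_of_nonneg_left h10 (by linarith)
  calc D * ((1 - η) * T * s0 - η * A) ≤ D * (T * ((1 - η') * (s0 - ε * A)) - η / 2 * A) := h11
    _ = T * ((1 - η') * D * (s0 - ε * A)) - D * (η / 2 * A) := by ring
    _ ≤ T * ((1 - η') * D * (s0 - ε * A)) - η / 2 * A := by linarith

end Pool.Agent.Helper82.PX
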